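import Mathlib

/-!
# Project HT, part `S_ELL`: statements of the subparts

`crv a b c` is the elliptic curve `Y² = (X - a) (X - b) (X - c)`, `Bg r P` says that the point `P` is
the origin or its first coordinate has absolute value at least `r`.
-/

set_option autoImplicit false
set_option linter.all false

namespace Pool.Agent.Zk94.HT

/-- the curve `Y² = (X - a) (X - b) (X - c)` -/
def crv {L : Type} [Field L] (a b c : L) : WeierstrassCurve L :=
  ⟨0, -(a + b + c), 0, a * b + b * c + c * a, -(a * b * c)⟩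

/-- `P` is the origin or `r ≤ |X(P)|` -/
def Bg {L : Type} [NormedField L] {a b c : L} (r : ℝ) : (crv a b c).toAffine.Point → Prop
  | .zero => True
  | .some x _ _ => r ≤ ‖x‖

/-- E1: the neighbourhoods of the origin are subgroups, and the multiplication by two is contracting -/
def S_E1 : Prop := ∀ (L : Type) [NormedField L] [IsUltrametricDist L] [DecidableEq L],
  ∀ a b c : L, a ≠ b → b ≠ c → a ≠ c → ∀ r : ℝ, max ‖a‖ (max ‖b‖ ‖c‖) < r →
    (∀ P Q : (crv a b c).toAffine.Point, Bg r P → Bg r Q → Bg r (P + Q)) ∧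
    (∀ P : (crv a b c).toAffine.Point, Bg r P → Bg r (-P)) ∧
    ((2 : L) ≠ 0 → ∀ P : (crv a b c).toAffine.Point, Bg r P → Bg (r / ‖(2 : L)‖ ^ 2) (P + P))

/-- E2: among infinitely many points there are two whose difference is near the origin -/
def S_E2 : Prop := ∀ (L : Type) [NontriviallyNormedField L] [IsUltrametricDist L] [ProperSpace L]
  [CharZero L] [DecidableEq L], ∀ a b c : L, a ≠ b → b ≠ c → a ≠ c → ∀ r : ℝ,
    max ‖a‖ (max ‖b‖ ‖c‖) < r → ∀ T : Set (crv a b c).toAffine.Point, T.Infinite →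
    ∃ P ∈ T, ∃ Q ∈ T, P ≠ Q ∧ Bg r (P - Q)

/-- E3: the halves of a point -/
def S_E3 : Prop := ∀ (L : Type) [Field L] [CharZero L] [DecidableEq L],
  ∀ a b c : L, a ≠ b → b ≠ c → a ≠ c → ∀ X α β γ : ℕ → L,
    (∀ j, α j ^ 2 = X j - a ∧ β j ^ 2 = X j - b ∧ γ j ^ 2 = X j - c ∧
      X (j + 1) = X j + α j * β j + β j * γ j + γ j * α j) →
    ∃ P : ℕ → (crv a b c).toAffine.Point, (∀ j, P (j + 1) + P (j + 1) = P j) ∧
      ∀ j, ∃ y h, P j = .some (X j) y h

end Pool.Agent.Zk94.HT
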