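import Mathlib
import Pool.Agent.Zk12.HT.End

/-!
# Project HT: the universal curve with rational branch points (algebra)

`y² = ∏ (x - t_i)` over `k₀(t_1, …, t_N)` is, with `x = t_1 + (t_2 - t_1) x'`, the curve
`t^(-N) y² = ∏ (x' - b_i)` with `t = t_2 - t_1` and `b_i = (t_i - t_1) / t`, over `k₁(t)`,
`k₁ = k₀(t_1, b_3, …, b_N)`.
-/

set_option autoImplicit false
set_option linter.all false

open Polynomial

namespace Pool.Agent.Zk94.HT

open scoped IntermediateField.algebraAdjoinAdjoin in
/-- fewer elements do not suffice -/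
theorem no_fewer {k₀ k : Type} [Field k₀] [Field k] [Algebra k₀ k] {N : ℕ} (a : Fin (N + 1) → k)
    (ha : AlgebraicIndependent k₀ a) (c : Fin N → k)
    (h : Algebra.IsAlgebraic (IntermediateField.adjoin k₀ (Set.range c)) k) : False := by
  have h1 : Algebra.IsAlgebraic (Algebra.adjoin k₀ (Set.range c)) k :=
    Algebra.IsAlgebraic.trans (Algebra.adjoin k₀ (Set.range c))
      (IntermediateField.adjoin k₀ (Set.range c)) k
  have h3 := Algebra.IsAlgebraic.trdeg_le_cardinalMk k₀ (Set.range c)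
  have h4 := ha.cardinalMk_le_trdeg
  have h5 : Cardinal.mk (Set.range c) ≤ N := by
    refine Cardinal.mk_range_le.trans ?_
    simp
  have h6 : ((N + 1 : ℕ) : Cardinal) ≤ N := by
    refine le_trans ?_ (h4.trans (h3.trans h5))
    simp
  have h7 : N + 1 ≤ N := by exact_mod_cast h6
  omega

/-- everything is algebraic over a field over which the generators are algebraic -/
theorem alg_of_gen {k₀ k : Type} [Field k₀] [Field k] [Algebra k₀ k] {ι : Type} (a : ι → k)
    (htop : IntermediateField.adjoin k₀ (Set.range a) = ⊤) (L : IntermediateField k₀ k)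
    (h : ∀ i, IsAlgebraic L (a i)) : Algebra.IsAlgebraic L k := by
  have h1 : IntermediateField.adjoin k₀ (Set.range a) ≤
      (algebraicClosure L k).restrictScalars k₀ := by
    rw [IntermediateField.adjoin_le_iff]
    rintro _ ⟨i, rfl⟩
    exact (mem_algebraicClosure_iff).2 (h i)
  rw [htop] at h1
  refine ⟨fun z => ?_⟩
  have h2 : z ∈ (algebraicClosure L k).restrictScalars k₀ := h1 IntermediateField.mem_top
  exact (mem_algebraicClosure_iff).1 h2

theorem top_of_gen {k₀ k : Type} [Field k₀] [Field k] [Algebra k₀ k] {ι : Type} (a : ι → k)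
    (htop : IntermediateField.adjoin k₀ (Set.range a) = ⊤) (L : IntermediateField k₀ k)
    (E : IntermediateField L k) (h : ∀ i, a i ∈ E) : E = ⊤ := by
  have h1 : IntermediateField.adjoin k₀ (Set.range a) ≤ E.restrictScalars k₀ := by
    rw [IntermediateField.adjoin_le_iff]
    rintro _ ⟨i, rfl⟩
    exact h i
  rw [htop] at h1
  rw [eq_top_iff]
  intro z _
  exact h1 (IntermediateField.mem_top : z ∈ (⊤ : IntermediateField k₀ k))

/-- **the substitution** -/
theorem gens_core {k₀ k : Type} [Field k₀] [CharZero k₀] [Field k] [Algebra k₀ k] (N : ℕ)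
    (hN : 3 ≤ N) (a : Fin N → k) (ha : AlgebraicIndependent k₀ a)
    (htop : IntermediateField.adjoin k₀ (Set.range a) = ⊤)
    (Q : k[X] → k → Prop)
    (hmul : ∀ (c d : k) (F : k[X]), c ≠ 0 → Q F d → Q (C c * F) (c * d))
    (haff : ∀ (α β d : k) (F : k[X]), α ≠ 0 → Q F d → Q (F.comp (C α * X + C β)) d)
    (hQ : ∀ (M : ℕ) (b : Fin M → k) (L : IntermediateField k₀ k)
      (_ : L = IntermediateField.adjoin k₀ (Set.range b))
      (t : k) (_ : Transcendental L t) (_ : IntermediateField.adjoin L {t} = ⊤) (f : L[X])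
      (_ : f.Separable) (_ : f.natDegree = N), Q (f.map (algebraMap L k)) (t ^ (-(N : ℤ)))) :
    Q (∏ i : Fin N, (X - C (a i))) 1 := by
  obtain ⟨M, rfl⟩ : ∃ M, N = M + 1 := ⟨N - 1, by omega⟩
  have hainj : Function.Injective a := ha.injective
  obtain ⟨u, hu⟩ : ∃ u, u = a ⟨0, by omega⟩ := ⟨_, rfl⟩
  obtain ⟨t, ht⟩ : ∃ t, t = a ⟨1, by omega⟩ - u := ⟨_, rfl⟩
  have ht0 : t ≠ 0 := by
    rw [ht, hu, sub_ne_zero]
    intro h
    have := congrArg Fin.val (hainj h)
    simp at this
  obtain ⟨b, hb⟩ : ∃ b : Fin (M + 1) → k, ∀ i, b i = (a i - u) / t := ⟨_, fun _ => rfl⟩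
  have hab : ∀ i, a i = u + b i * t := fun i => by
    rw [hb, div_mul_cancel₀ _ ht0]; ring
  have hb0 : b ⟨0, by omega⟩ = 0 := by rw [hb, ← hu, sub_self, zero_div]
  have hb1 : b ⟨1, by omega⟩ = 1 := by rw [hb, ← ht, div_self ht0]
  have hbinj : Function.Injective b := by
    intro i j h
    apply hainj
    rw [hab, hab, h]
  -- the field `k₁`
  obtain ⟨c, hc⟩ : ∃ c : Fin M → k, ∀ j, c j = if (j : ℕ) = 0 then u else b j.succ :=
    ⟨_, fun _ => rfl⟩
  obtain ⟨L, hL⟩ : ∃ L, L = IntermediateField.adjoin k₀ (Set.range c) := ⟨_, rfl⟩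
  have hcL : ∀ j, c j ∈ L := fun j => by
    rw [hL]; exact IntermediateField.subset_adjoin _ _ ⟨j, rfl⟩
  have huL : u ∈ L := by
    have h1 : c ⟨0, by omega⟩ = u := by rw [hc, if_pos rfl]
    rw [← h1]; exact hcL _
  have hbL : ∀ i, b i ∈ L := by
    intro i
    by_cases h0 : (i : ℕ) = 0
    · have : i = ⟨0, by omega⟩ := Fin.ext h0
      rw [this, hb0]; exact zero_mem _
    · by_cases h1 : (i : ℕ) = 1
      · have : i = ⟨1, by omega⟩ := Fin.ext h1
        rw [this, hb1]; exact one_mem _
      · obtain ⟨j, hj⟩ : ∃ j : Fin M, i = j.succ := by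
          refine ⟨⟨(i : ℕ) - 1, by have := i.2; omega⟩, Fin.ext ?_⟩
          simp only [Fin.val_succ]
          omega
        have hj0 : (j : ℕ) ≠ 0 := by
          intro h
          apply h1
          rw [hj, Fin.val_succ, h]
        have h2 : c j = b i := by rw [hc, if_neg hj0, hj]
        rw [← h2]; exact hcL j
  obtain ⟨bL, hbL'⟩ : ∃ bL : Fin (M + 1) → L, ∀ i, algebraMap L k (bL i) = b i :=
    ⟨fun i => ⟨b i, hbL i⟩, fun i => rfl⟩
  have htr : Transcendental L t := by
    intro h
    have h1 : Algebra.IsAlgebraic L k := by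
      refine alg_of_gen a htop L fun i => ?_
      rw [hab]
      refine IsAlgebraic.add ?_ (IsAlgebraic.mul ?_ h)
      · exact isAlgebraic_algebraMap (⟨u, huL⟩ : L)
      · exact isAlgebraic_algebraMap (⟨b i, hbL i⟩ : L)
    rw [hL] at h1
    exact no_fewer a ha c h1
  have hgen : IntermediateField.adjoin L {t} = ⊤ := by
    refine top_of_gen a htop L _ fun i => ?_
    have h2 : t ∈ IntermediateField.adjoin L {t} := IntermediateField.mem_adjoin_simple_self L t
    rw [hab]
    refine add_mem ?_ (mul_mem ?_ h2)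
    · exact IntermediateField.algebraMap_mem (IntermediateField.adjoin L {t}) (⟨u, huL⟩ : L)
    · exact IntermediateField.algebraMap_mem (IntermediateField.adjoin L {t}) (⟨b i, hbL i⟩ : L)
  have hsep : (∏ i : Fin (M + 1), (X - C (bL i))).Separable := by
    rw [Polynomial.separable_prod_X_sub_C_iff]
    intro i j h
    apply hbinj
    rw [← hbL', ← hbL', h]
  have hdeg : (∏ i : Fin (M + 1), (X - C (bL i))).natDegree = M + 1 := by
    rw [natDegree_prod_of_monic _ _ fun i _ => monic_X_sub_C _]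
    simp
  have h1 := hQ M c L hL t htr hgen _ hsep hdeg
  have h2 := hmul (t ^ (M + 1)) _ _ (pow_ne_zero _ ht0) h1
  have h3 := haff t⁻¹ (-u * t⁻¹) _ _ (inv_ne_zero ht0) h2
  have h4 : t ^ (M + 1) * t ^ (-((M + 1 : ℕ) : ℤ)) = 1 := by
    rw [zpow_neg, zpow_natCast, mul_inv_cancel₀ (pow_ne_zero _ ht0)]
  have h5 : (C (t ^ (M + 1)) * (∏ i : Fin (M + 1), (X - C (bL i))).map (algebraMap L k)).comp
      (C t⁻¹ * X + C (-u * t⁻¹)) = ∏ i : Fin (M + 1), (X - C (a i)) := by
    have h6 : C (t ^ (M + 1)) = ∏ i : Fin (M + 1), (C t : k[X]) := by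
      rw [Finset.prod_const, C_pow]
      simp
    rw [h6, Polynomial.map_prod, ← Finset.prod_mul_distrib, Polynomial.prod_comp]
    refine Finset.prod_congr rfl fun i _ => ?_
    rw [Polynomial.map_sub, map_X, map_C, hbL', mul_comp, sub_comp, X_comp, C_comp, C_comp, hab]
    have h7 : (C t : k[X]) * C t⁻¹ = 1 := by rw [← C_mul, mul_inv_cancel₀ ht0, C_1]
    simp only [map_add, map_mul, map_neg]
    linear_combination (X - C u) * h7
  rw [h4, h5] at h3
  exact h3

open Pool.Agent.Zk12.HT Pool.Agent.TH954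

/-- multiplication of the equation by a constant -/
theorem bsc_mul_const {k : Type} [Field k] (f : k[X]) (c d : k) (hc : c ≠ 0) (h : BSC f d) :
    BSC (C c * f) (c * d) := by
  intro F Ω B _ _ _ _ _ _ _ _ _ _ x y hx halg hxy s
  have hcF : algebraMap k F c ≠ 0 := (_root_.map_ne_zero _).2 hc
  have h1 : algebraMap k F d * y ^ 2 = aeval x f := by
    rw [map_mul, map_mul, aeval_C, mul_assoc] at hxy
    exact mul_left_cancel₀ hcF hxy
  obtain ⟨O, hO, hu, hpt⟩ := h F Ω B x y hx halg h1 s
  refine ⟨O, hO, hu, ?_⟩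
  rcases hpt with ⟨e, he, hpt⟩ | ⟨hodd, hpt⟩
  · left
    exact ⟨e, by rw [eval_mul, he, mul_zero], hpt⟩
  · right
    refine ⟨?_, hpt⟩
    rwa [natDegree_C_mul hc]

/-- **affine change of the coordinate** -/
theorem bsc_aff {k : Type} [Field k] (f : k[X]) (d α β : k) (hα : α ≠ 0) (h : BSC f d) :
    BSC (f.comp (C α * X + C β)) d := by
  intro F Ω B _ _ _ _ _ _ _ _ _ _ x y hx halg hxy s
  have hαF : algebraMap k F α ≠ 0 := (_root_.map_ne_zero _).2 hα
  obtain ⟨z, hz⟩ : ∃ z, z = algebraMap k F α * x + algebraMap k F β := ⟨_, rfl⟩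
  have hzx : x = (algebraMap k F α)⁻¹ * (z - algebraMap k F β) := by
    rw [hz]; field_simp; ring
  have hz1 : Transcendental k z := by
    intro h1
    apply hx
    rw [hzx]
    exact ((isAlgebraic_algebraMap α).inv).mul (h1.sub (isAlgebraic_algebraMap β))
  have hz2 : IntermediateField.adjoin k {z} = IntermediateField.adjoin k {x} := by
    apply le_antisymm
    · rw [IntermediateField.adjoin_simple_le_iff, hz]
      exact add_mem (mul_mem (IntermediateField.algebraMap_mem _ _)
        (IntermediateField.mem_adjoin_simple_self k x)) (IntermediateField.algebraMap_mem _ _)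
    · rw [IntermediateField.adjoin_simple_le_iff, hzx]
      exact mul_mem (inv_mem (IntermediateField.algebraMap_mem _ _))
        (sub_mem (IntermediateField.mem_adjoin_simple_self k z) (IntermediateField.algebraMap_mem _ _))
  have hz3 : Algebra.IsAlgebraic (IntermediateField.adjoin k {z}) F := by
    rw [hz2]; exact halg
  have hz4 : algebraMap k F d * y ^ 2 = aeval z f := by
    rw [hxy, aeval_comp, hz]
    congr 1
    simp
  obtain ⟨O, hO, hu, hpt⟩ := h F Ω B z y hz1 hz3 hz4 s
  refine ⟨O, hO, hu, ?_⟩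
  have hval : ∀ c : k, c ≠ 0 → O.valuation (algebraMap k F c) = 1 := by
    intro c hc
    apply le_antisymm ((O.valuation_le_one_iff _).2 (hO.2.1 c))
    have h1 := (O.valuation_le_one_iff _).2 (hO.2.1 c⁻¹)
    rw [map_inv₀, map_inv₀] at h1
    have h2 : O.valuation (algebraMap k F c) ≠ 0 :=
      (Valuation.ne_zero_iff _).2 ((_root_.map_ne_zero _).2 hc)
    exact (inv_le_one₀ (zero_lt_iff.2 h2)).1 h1
  have hle : ∀ c : k, O.valuation (algebraMap k F c) ≤ 1 := fun c =>
    (O.valuation_le_one_iff _).2 (hO.2.1 c)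
  rcases hpt with ⟨e, he, hpt⟩ | ⟨hodd, hpt⟩
  · left
    refine ⟨α⁻¹ * (e - β), ?_, ?_⟩
    · rw [eval_comp]
      have : eval (α⁻¹ * (e - β)) (C α * X + C β) = e := by
        simp only [eval_add, eval_mul, eval_C, eval_X]
        rw [← mul_assoc, mul_inv_cancel₀ hα]; ring
      rw [this, he]
    · rw [mem_nonunits_iff_lt] at hpt ⊢
      have h1 : x - algebraMap k F (α⁻¹ * (e - β)) =
          algebraMap k F α⁻¹ * (z - algebraMap k F e) := by
        rw [hzx]
        simp only [map_mul, map_inv₀, map_sub]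
        ring
      rw [h1, map_mul, hval _ (inv_ne_zero hα), one_mul]
      exact hpt
  · right
    refine ⟨?_, ?_⟩
    · rw [natDegree_comp, natDegree_linear hα, mul_one]
      exact hodd
    · rw [mem_nonunits_iff_lt] at hpt ⊢
      have hz0 : z ≠ 0 := by
        intro h0
        apply hz1
        rw [h0]; exact isAlgebraic_zero
      have hx0 : x ≠ 0 := by
        intro h0
        apply hx
        rw [h0]; exact isAlgebraic_zero
      rw [map_inv₀] at hpt ⊢
      have h2 : 1 < O.valuation z :=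
        (inv_lt_one₀ (zero_lt_iff.2 ((Valuation.ne_zero_iff _).2 hz0))).1 hpt
      rw [inv_lt_one₀ (zero_lt_iff.2 ((Valuation.ne_zero_iff _).2 hx0))]
      by_contra h3
      rw [not_lt] at h3
      apply absurd h2
      rw [not_lt, hz]
      refine (Valuation.map_add _ _ _).trans (max_le ?_ (hle β))
      rw [map_mul]
      exact mul_le_one' (hle α) h3

end Pool.Agent.Zk94.HT
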