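import Mathlib
import Pool.Agent.Zk12.HT.GenStm
import Pool.Agent.Zk94.HT.GenSa

/-!
# Project HT: the universal curve with rational branch points
-/

set_option autoImplicit false
set_option linter.all false

open Polynomial

namespace Pool.Agent.Zk94.HT

/-- finitely generated over finitely generated -/
theorem fg_over {k₀ k : Type} [Field k₀] [CharZero k₀] (hfg : (⊤ : IntermediateField ℚ k₀).FG) [Field k]
    [Algebra k₀ k] {ι : Type} [Finite ι] (b : ι → k) [CharZero (IntermediateField.adjoin k₀ (Set.range b))] :
    (⊤ : IntermediateField ℚ (IntermediateField.adjoin k₀ (Set.range b))).FG := by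
  have h1 : Algebra.EssFiniteType ℚ k₀ := IntermediateField.fg_top_iff.1 hfg
  have h2 : Algebra.EssFiniteType k₀ (IntermediateField.adjoin k₀ (Set.range b)) := by
    rw [IntermediateField.essFiniteType_iff]
    exact IntermediateField.fg_def.2 ⟨Set.range b, Set.finite_range b, rfl⟩
  have h3 : IsScalarTower ℚ k₀ (IntermediateField.adjoin k₀ (Set.range b)) := inferInstance
  have h4 : Algebra.EssFiniteType ℚ (IntermediateField.adjoin k₀ (Set.range b)) :=
    Algebra.EssFiniteType.comp ℚ k₀ (IntermediateField.adjoin k₀ (Set.range b))
  exact IntermediateField.fg_top_iff.2 h4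

open Pool.Agent.Zk12.HT Pool.Agent.TH954

/-- **the universal curve with rational branch points** -/
theorem gens : S_GENS := by
  intro k₀ k _ _ hfg _ _ N hN hodd a ha htop
  haveI : CharZero k := charZero_of_injective_algebraMap (FaithfulSMul.algebraMap_injective k₀ k)
  refine gens_core N hN a ha htop (fun f d => BSC f d) (fun c d F hc h => bsc_mul_const F c d hc h)
    (fun α β d F hα h => bsc_aff F d α β hα h) ?_
  intro M b L hL t ht hgen f hf hdeg
  subst hL
  have h := bsc_final (IntermediateField.adjoin k₀ (Set.range b)) k (fg_over hfg b) t ht hgen f hf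
    (by omega) 1 one_ne_zero (-(N : ℤ))
      ((Int.odd_coe_nat N).2 hodd).neg
  rw [map_one, one_mul] at h
  exact h

end Pool.Agent.Zk94.HT
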