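import Mathlib
import Pool.Agent.Zk94.HT.EStm

/-!
# Project HT, part `S_ELL`: the neighbourhoods of the origin
-/

set_option autoImplicit false
set_option linter.all false

open WeierstrassCurve

namespace Pool.Agent.Zk94.HT

section

variable {L : Type} [Field L] {a b c : L}

theorem crv_eqn {x y : L} (h : (crv a b c).toAffine.Equation x y) :
    y ^ 2 = (x - a) * (x - b) * (x - c) := by
  rw [Affine.equation_iff] at h
  simp only [crv] at h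
  linear_combination h

theorem crv_eqn' {x y : L} (h : (crv a b c).toAffine.Nonsingular x y) :
    y ^ 2 = (x - a) * (x - b) * (x - c) := crv_eqn h.1

theorem crv_negY (x y : L) : (crv a b c).toAffine.negY x y = -y := by
  simp [crv]

theorem crv_addX (x₁ x₂ l : L) : (crv a b c).toAffine.addX x₁ x₂ l = l ^ 2 + (a + b + c) - x₁ - x₂ := by
  simp only [Affine.addX, crv]
  ring

/-- the sum formula -/
theorem sum_f {x₁ x₂ y₁ y₂ : L} (h : x₁ - x₂ ≠ 0) (h1 : y₁ ^ 2 = (x₁ - a) * (x₁ - b) * (x₁ - c))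
    (h2 : y₂ ^ 2 = (x₂ - a) * (x₂ - b) * (x₂ - c)) :
    ((((y₁ - y₂) / (x₁ - x₂)) ^ 2 + (a + b + c) - x₁ - x₂) +
      (((y₁ + y₂) / (x₁ - x₂)) ^ 2 + (a + b + c) - x₁ - x₂)) * (x₁ - x₂) ^ 2 =
    2 * ((x₁ + x₂) * (x₁ * x₂ + (a * b + b * c + c * a)) - 2 * (a + b + c) * (x₁ * x₂) -
      2 * (a * b * c)) := by
  field_simp
  linear_combination 2 * h1 + 2 * h2

/-- the product formula -/
theorem prod_f {x₁ x₂ y₁ y₂ : L} (h : x₁ - x₂ ≠ 0) (h1 : y₁ ^ 2 = (x₁ - a) * (x₁ - b) * (x₁ - c))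
    (h2 : y₂ ^ 2 = (x₂ - a) * (x₂ - b) * (x₂ - c)) :
    ((((y₁ - y₂) / (x₁ - x₂)) ^ 2 + (a + b + c) - x₁ - x₂) *
      (((y₁ + y₂) / (x₁ - x₂)) ^ 2 + (a + b + c) - x₁ - x₂)) * (x₁ - x₂) ^ 2 =
    (x₁ * x₂ - (a * b + b * c + c * a)) ^ 2 + 4 * (a * b * c) * (x₁ + x₂ - (a + b + c)) := by
  have e : ((((y₁ - y₂) / (x₁ - x₂)) ^ 2 + (a + b + c) - x₁ - x₂) *
      (((y₁ + y₂) / (x₁ - x₂)) ^ 2 + (a + b + c) - x₁ - x₂)) * (x₁ - x₂) ^ 4 =
      (y₁ ^ 2 - y₂ ^ 2) ^ 2 + ((a + b + c) - x₁ - x₂) * (x₁ - x₂) ^ 2 * (2 * y₁ ^ 2 + 2 * y₂ ^ 2) +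
        ((a + b + c) - x₁ - x₂) ^ 2 * (x₁ - x₂) ^ 4 := by
    field_simp
    ring
  rw [h1, h2] at e
  apply mul_right_cancel₀ (pow_ne_zero 2 h)
  rw [mul_assoc, ← pow_add, e]
  ring

/-- the duplication formula -/
theorem dbl_f {x y : L} (h2 : (2 : L) ≠ 0) (hy : y ≠ 0) (h : y ^ 2 = (x - a) * (x - b) * (x - c)) :
    (((3 * x ^ 2 - 2 * (a + b + c) * x + (a * b + b * c + c * a)) / (2 * y)) ^ 2 + (a + b + c) - x - x) *
      (4 * y ^ 2) = (x ^ 2 - (a * b + b * c + c * a)) ^ 2 + 8 * (a * b * c) * x -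
        4 * (a + b + c) * (a * b * c) := by
  have e : (((3 * x ^ 2 - 2 * (a + b + c) * x + (a * b + b * c + c * a)) / (2 * y)) ^ 2 +
      (a + b + c) - x - x) * (4 * y ^ 2) =
      (3 * x ^ 2 - 2 * (a + b + c) * x + (a * b + b * c + c * a)) ^ 2 +
        4 * ((a + b + c) - 2 * x) * y ^ 2 := by
    field_simp
    ring
  rw [e, h]
  ring

end

section

variable {L : Type} [NormedField L] [IsUltrametricDist L]

theorem n_add (x y : L) : ‖x + y‖ ≤ max ‖x‖ ‖y‖ := IsUltrametricDist.norm_add_le_max x y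

theorem n_sub (x y : L) : ‖x - y‖ ≤ max ‖x‖ ‖y‖ := by
  have h := n_add x (-y)
  rwa [norm_neg, ← sub_eq_add_neg] at h

theorem n_lt {x y : L} (h : ‖y‖ < ‖x‖) : ‖x + y‖ = ‖x‖ := by
  rw [IsUltrametricDist.norm_add_eq_max_of_norm_ne_norm h.ne', max_eq_left h.le]

theorem n_lt' {x y : L} (h : ‖y‖ < ‖x‖) : ‖x - y‖ = ‖x‖ := by
  rw [sub_eq_add_neg]
  apply n_lt
  rwa [norm_neg]

theorem n_nat (n : ℕ) : ‖(n : L)‖ ≤ 1 := IsUltrametricDist.norm_natCast_le_one L n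

/-- the key estimate -/
theorem key {u v : L} {N μ M : ℝ} (hN : 0 < N) (hμ : 0 < μ) (hM : 0 < M)
    (h1 : ‖u‖ * ‖v‖ * N = μ ^ 2 * M ^ 2) (h2 : ‖u + v‖ * N ≤ μ * M ^ 2) (h3 : N ≤ M ^ 2) :
    μ ≤ ‖u‖ := by
  by_contra h
  push Not at h
  have hv : 0 < ‖v‖ := by
    rcases (norm_nonneg v).eq_or_lt with h0 | h0
    · rw [← h0, mul_zero, zero_mul] at h1
      have : 0 < μ ^ 2 * M ^ 2 := by positivity
      linarith
    · exact h0
  have h4 : μ ^ 2 * M ^ 2 < μ * (‖v‖ * N) := by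
    rw [← h1, mul_assoc]
    exact mul_lt_mul_of_pos_right h (by positivity)
  have h5 : μ * M ^ 2 < ‖v‖ * N := by
    have h6 : μ * (μ * M ^ 2) < μ * (‖v‖ * N) := by
      calc μ * (μ * M ^ 2) = μ ^ 2 * M ^ 2 := by ring
        _ < _ := h4
    exact lt_of_mul_lt_mul_left h6 hμ.le
  have h6 : ‖u + v‖ < ‖v‖ := by
    have : ‖u + v‖ * N < ‖v‖ * N := h2.trans_lt h5
    exact lt_of_mul_lt_mul_right this hN.le
  have h7 : μ < ‖v‖ := by
    have h8 : μ * N ≤ μ * M ^ 2 := mul_le_mul_of_nonneg_left h3 hμ.le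
    exact lt_of_mul_lt_mul_right (h8.trans_lt h5) hN.le
  have h8 : ‖v + u‖ = ‖v‖ := n_lt (h.trans h7)
  rw [add_comm] at h8
  linarith

variable {a b c : L} {ρ : ℝ} (ha : ‖a‖ ≤ ρ) (hb : ‖b‖ ≤ ρ) (hc : ‖c‖ ≤ ρ)

include ha hb hc

theorem s_le : ‖a + b + c‖ ≤ ρ :=
  (n_add _ _).trans (max_le ((n_add _ _).trans (max_le ha hb)) hc)

theorem mul_le2 {x y : L} {A B : ℝ} (hx : ‖x‖ ≤ A) (hy : ‖y‖ ≤ B) (hA : 0 ≤ A) : ‖x * y‖ ≤ A * B := by
  rw [norm_mul]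
  exact mul_le_mul hx hy (norm_nonneg _) hA

theorem e2_le : ‖a * b + b * c + c * a‖ ≤ ρ * ρ := by
  have hρ : 0 ≤ ρ := (norm_nonneg a).trans ha
  refine (n_add _ _).trans (max_le ((n_add _ _).trans (max_le ?_ ?_)) ?_)
  · exact mul_le2 ha hb hc ha hb hρ
  · exact mul_le2 ha hb hc hb hc hρ
  · exact mul_le2 ha hb hc hc ha hρ

theorem e3_le : ‖a * b * c‖ ≤ ρ * ρ * ρ := by
  have hρ : 0 ≤ ρ := (norm_nonneg a).trans ha
  exact mul_le2 ha hb hc (mul_le2 ha hb hc ha hb hρ) hc (by positivity)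

theorem y_norm {x y : L} (h : ρ < ‖x‖) (hy : y ^ 2 = (x - a) * (x - b) * (x - c)) :
    ‖y‖ ^ 2 = ‖x‖ ^ 3 := by
  rw [← norm_pow, hy, norm_mul, norm_mul, n_lt' (ha.trans_lt h), n_lt' (hb.trans_lt h),
    n_lt' (hc.trans_lt h)]
  ring

/-- the first coordinate of the sum -/
theorem sum_big {x₁ x₂ y₁ y₂ : L} {r : ℝ} (hr : ρ < r) (hx1 : r ≤ ‖x₁‖) (hx2 : r ≤ ‖x₂‖)
    (hne : x₁ ≠ x₂) (h1 : y₁ ^ 2 = (x₁ - a) * (x₁ - b) * (x₁ - c))
    (h2 : y₂ ^ 2 = (x₂ - a) * (x₂ - b) * (x₂ - c)) :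
    r ≤ ‖((y₁ - y₂) / (x₁ - x₂)) ^ 2 + (a + b + c) - x₁ - x₂‖ := by
  have hρ : 0 ≤ ρ := (norm_nonneg a).trans ha
  have hr0 : 0 < r := hρ.trans_lt hr
  have hd : x₁ - x₂ ≠ 0 := sub_ne_zero.2 hne
  set u := ((y₁ - y₂) / (x₁ - x₂)) ^ 2 + (a + b + c) - x₁ - x₂ with hu
  set v := ((y₁ + y₂) / (x₁ - x₂)) ^ 2 + (a + b + c) - x₁ - x₂ with hv
  obtain ⟨μ, hμ⟩ : ∃ μ, μ = min ‖x₁‖ ‖x₂‖ := ⟨_, rfl⟩
  obtain ⟨M, hM⟩ : ∃ M, M = max ‖x₁‖ ‖x₂‖ := ⟨_, rfl⟩
  have hμr : r ≤ μ := by rw [hμ]; exact le_min hx1 hx2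
  have hμM : μ ≤ M := by rw [hμ, hM]; exact min_le_max
  have hMr : r ≤ M := hμr.trans hμM
  have hμ0 : 0 < μ := hr0.trans_le hμr
  have hM0 : 0 < M := hμ0.trans_le hμM
  have hprod : ‖x₁ * x₂‖ = μ * M := by rw [norm_mul, hμ, hM, min_mul_max]
  have hx1M : ‖x₁‖ ≤ M := by rw [hM]; exact le_max_left _ _
  have hx2M : ‖x₂‖ ≤ M := by rw [hM]; exact le_max_right _ _
  have he2 := e2_le ha hb hc
  have he3 := e3_le ha hb hc
  have hs := s_le ha hb hc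
  have hρμ : ρ < μ := hr.trans_le hμr
  have hρM : ρ < M := hr.trans_le hMr
  have hρρ : ρ * ρ < μ * M := mul_lt_mul'' hρμ hρM hρ hρ
  refine hμr.trans (key (u := u) (v := v) (N := ‖(x₁ - x₂) ^ 2‖) (M := M)
    (norm_pos_iff.2 (pow_ne_zero 2 hd)) hμ0 hM0 ?_ ?_ ?_)
  · rw [← norm_mul, ← norm_mul, prod_f hd h1 h2]
    have h5 : ‖x₁ * x₂ - (a * b + b * c + c * a)‖ = μ * M := by
      rw [n_lt' (by rw [hprod]; exact he2.trans_lt hρρ), hprod]
    have h6 : ‖4 * (a * b * c) * (x₁ + x₂ - (a + b + c))‖ < ‖(x₁ * x₂ - (a * b + b * c + c * a)) ^ 2‖ := by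
      rw [norm_pow, h5]
      have h7 : ‖4 * (a * b * c)‖ ≤ 1 * (ρ * ρ * ρ) := by
        refine mul_le2 ha hb hc ?_ he3 zero_le_one
        exact_mod_cast n_nat (L := L) 4
      have h8 : ‖x₁ + x₂ - (a + b + c)‖ ≤ M :=
        (n_sub _ _).trans (max_le ((n_add _ _).trans (max_le hx1M hx2M)) (hs.trans hρM.le))
      have h9 := mul_le2 ha hb hc h7 h8 (by positivity)
      refine h9.trans_lt ?_
      have h10 : 1 * (ρ * ρ * ρ) * M = (ρ * ρ) * (ρ * M) := by ring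
      have h11 : (μ * M) ^ 2 = (μ * M) * (μ * M) := by ring
      rw [h10, h11]
      exact mul_lt_mul'' hρρ (mul_lt_mul_of_pos_right hρμ hM0) (by positivity) (by positivity)
    rw [n_lt h6, norm_pow, h5]
    ring
  · rw [← norm_mul, sum_f hd h1 h2]
    have h7 : ‖(x₁ + x₂) * (x₁ * x₂ + (a * b + b * c + c * a)) - 2 * (a + b + c) * (x₁ * x₂) -
        2 * (a * b * c)‖ ≤ μ * M ^ 2 := by
      refine (n_sub _ _).trans (max_le ((n_sub _ _).trans (max_le ?_ ?_)) ?_)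
      · have h8 : ‖x₁ * x₂ + (a * b + b * c + c * a)‖ ≤ μ * M := by
          rw [n_lt (by rw [hprod]; exact he2.trans_lt hρρ), hprod]
        have h9 := mul_le2 ha hb hc ((n_add x₁ x₂).trans (max_le hx1M hx2M)) h8 hM0.le
        refine h9.trans (le_of_eq ?_)
        ring
      · have h8 : ‖2 * (a + b + c)‖ ≤ 1 * M := by
          refine mul_le2 ha hb hc ?_ (hs.trans hρM.le) zero_le_one
          exact_mod_cast n_nat (L := L) 2
        have h9 := mul_le2 ha hb hc h8 hprod.le (by positivity)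
        refine h9.trans (le_of_eq ?_)
        ring
      · have h8 : ‖2 * (a * b * c)‖ ≤ 1 * (ρ * ρ * ρ) := by
          refine mul_le2 ha hb hc ?_ he3 zero_le_one
          exact_mod_cast n_nat (L := L) 2
        refine h8.trans ?_
        have h9 : ρ * ρ * ρ ≤ μ * M * M :=
          mul_le_mul hρρ.le hρM.le hρ (by positivity)
        rw [one_mul]
        refine h9.trans (le_of_eq ?_)
        ring
    have h8 : ‖(2 : L)‖ ≤ 1 := by exact_mod_cast n_nat (L := L) 2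
    have h9 := mul_le2 ha hb hc h8 h7 zero_le_one
    rwa [one_mul] at h9
  · rw [norm_pow]
    exact pow_le_pow_left₀ (norm_nonneg _) ((n_sub _ _).trans (max_le hx1M hx2M)) 2

/-- the first coordinate of the double -/
theorem dbl_big {x y : L} (hx : ρ < ‖x‖) (h2 : (2 : L) ≠ 0)
    (h : y ^ 2 = (x - a) * (x - b) * (x - c)) :
    ‖((3 * x ^ 2 - 2 * (a + b + c) * x + (a * b + b * c + c * a)) / (2 * y)) ^ 2 + (a + b + c) - x - x‖ =
      ‖x‖ / ‖(2 : L)‖ ^ 2 := by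
  have hρ : 0 ≤ ρ := (norm_nonneg a).trans ha
  have hx0 : 0 < ‖x‖ := hρ.trans_lt hx
  have hyn := y_norm ha hb hc hx h
  have hy : y ≠ 0 := by
    rintro rfl
    rw [norm_zero, zero_pow two_ne_zero] at hyn
    have : 0 < ‖x‖ ^ 3 := by positivity
    linarith
  have e := congrArg norm (dbl_f (a := a) (b := b) (c := c) h2 hy h)
  have he2 := e2_le ha hb hc
  have he3 := e3_le ha hb hc
  have hs := s_le ha hb hc
  have hρρ : ρ * ρ < ‖x‖ * ‖x‖ := mul_lt_mul'' hx hx hρ hρ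
  have h5 : ‖x ^ 2 - (a * b + b * c + c * a)‖ = ‖x‖ * ‖x‖ := by
    rw [n_lt' (by rw [norm_pow, pow_two]; exact he2.trans_lt hρρ), norm_pow, pow_two]
  have h6 : ‖(x ^ 2 - (a * b + b * c + c * a)) ^ 2‖ = ‖x‖ ^ 4 := by
    rw [norm_pow, h5]; ring
  have h3ρ : ρ * ρ * ρ * ‖x‖ < ‖x‖ ^ 4 := by
    have h7 : ρ * ρ * ρ < ‖x‖ * ‖x‖ * ‖x‖ := mul_lt_mul'' hρρ hx (by positivity) hρ
    calc ρ * ρ * ρ * ‖x‖ < ‖x‖ * ‖x‖ * ‖x‖ * ‖x‖ := mul_lt_mul_of_pos_right h7 hx0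
      _ = ‖x‖ ^ 4 := by ring
  have h7 : ‖8 * (a * b * c) * x‖ < ‖(x ^ 2 - (a * b + b * c + c * a)) ^ 2‖ := by
    rw [h6]
    have h8 : ‖8 * (a * b * c)‖ ≤ 1 * (ρ * ρ * ρ) := by
      refine mul_le2 ha hb hc ?_ he3 zero_le_one
      exact_mod_cast n_nat (L := L) 8
    have h9 := mul_le2 ha hb hc h8 (le_refl ‖x‖) (by positivity)
    rw [one_mul] at h9
    exact h9.trans_lt h3ρ
  have h8 : ‖4 * (a + b + c) * (a * b * c)‖ < ‖(x ^ 2 - (a * b + b * c + c * a)) ^ 2 + 8 * (a * b * c) * x‖ := by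
    rw [n_lt h7, h6]
    have h8 : ‖4 * (a + b + c)‖ ≤ 1 * ‖x‖ := by
      refine mul_le2 ha hb hc ?_ (hs.trans hx.le) zero_le_one
      exact_mod_cast n_nat (L := L) 4
    have h9 := mul_le2 ha hb hc h8 he3 (by positivity)
    refine h9.trans_lt ?_
    have h10 : 1 * ‖x‖ * (ρ * ρ * ρ) = ρ * ρ * ρ * ‖x‖ := by ring
    rw [h10]
    exact h3ρ
  rw [n_lt' h8, n_lt h7, h6, norm_mul, norm_mul, norm_pow, hyn] at e
  have h4 : ‖(4 : L)‖ = ‖(2 : L)‖ ^ 2 := by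
    rw [← norm_pow]; congr 1; norm_num
  have h20 : 0 < ‖(2 : L)‖ := norm_pos_iff.2 h2
  rw [h4] at e
  rw [eq_div_iff (by positivity)]
  have h11 : ‖x‖ ^ 3 ≠ 0 := by positivity
  apply mul_right_cancel₀ h11
  linear_combination e

end

theorem t_E1 : S_E1 := by
  intro L _ _ _ a b c hab hbc hac r hr
  have ha : ‖a‖ ≤ max ‖a‖ (max ‖b‖ ‖c‖) := le_max_left _ _
  have hb : ‖b‖ ≤ max ‖a‖ (max ‖b‖ ‖c‖) := (le_max_left _ _).trans (le_max_right _ _)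
  have hc : ‖c‖ ≤ max ‖a‖ (max ‖b‖ ‖c‖) := (le_max_right _ _).trans (le_max_right _ _)
  have hρ0 : 0 ≤ max ‖a‖ (max ‖b‖ ‖c‖) := (norm_nonneg a).trans ha
  have hdbl : (2 : L) ≠ 0 → ∀ P : (crv a b c).toAffine.Point, Bg r P →
      Bg (r / ‖(2 : L)‖ ^ 2) (P + P) := by
    intro h2 P hP
    rcases P with _ | ⟨x, y, h⟩
    · exact trivial
    · have hx : r ≤ ‖x‖ := hP
      have hxρ := hr.trans_le hx
      have hy := crv_eqn' h
      have hyn := y_norm ha hb hc hxρ hy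
      have hy0 : y ≠ 0 := by
        rintro rfl
        rw [norm_zero, zero_pow two_ne_zero] at hyn
        have : 0 < ‖x‖ ^ 3 := by
          have := hρ0.trans_lt hxρ
          positivity
        linarith
      have hne : y ≠ (crv a b c).toAffine.negY x y := by
        rw [crv_negY]
        intro h3
        apply mul_ne_zero h2 hy0
        linear_combination h3
      rw [Affine.Point.add_self_of_Y_ne hne]
      change r / ‖(2 : L)‖ ^ 2 ≤ ‖_‖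
      rw [crv_addX, Affine.slope_of_Y_ne rfl hne, crv_negY]
      have e : (3 * x ^ 2 + 2 * (crv a b c).toAffine.a₂ * x + (crv a b c).toAffine.a₄ -
          (crv a b c).toAffine.a₁ * y) / (y - -y) =
          (3 * x ^ 2 - 2 * (a + b + c) * x + (a * b + b * c + c * a)) / (2 * y) := by
        simp only [crv]
        congr 1 <;> ring
      rw [e, dbl_big ha hb hc hxρ h2 hy]
      gcongr
  refine ⟨?_, ?_, hdbl⟩
  · intro P Q hP hQ
    rcases P with _ | ⟨x₁, y₁, h₁⟩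
    · change Bg r (0 + Q)
      rw [zero_add]; exact hQ
    rcases Q with _ | ⟨x₂, y₂, h₂⟩
    · change Bg r (_ + 0)
      rw [add_zero]; exact hP
    have hx1 : r ≤ ‖x₁‖ := hP
    have hx2 : r ≤ ‖x₂‖ := hQ
    by_cases hx : x₁ = x₂
    · by_cases hy : y₁ = (crv a b c).toAffine.negY x₂ y₂
      · rw [Affine.Point.add_of_Y_eq hx hy]
        exact trivial
      · have hyy := Affine.Y_eq_of_Y_ne h₁.1 h₂.1 hx hy
        subst hx
        subst hyy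
        have h2 : (2 : L) ≠ 0 := by
          intro h2
          apply hy
          rw [crv_negY]
          linear_combination y₁ * h2
        have h3 := hdbl h2 _ hP
        have h20 : 0 < ‖(2 : L)‖ := norm_pos_iff.2 h2
        have h21 : ‖(2 : L)‖ ≤ 1 := by exact_mod_cast n_nat (L := L) 2
        have hr0 : 0 < r := hρ0.trans_lt hr
        have h4 : r ≤ r / ‖(2 : L)‖ ^ 2 := by
          rw [le_div_iff₀ (by positivity)]
          have : ‖(2 : L)‖ ^ 2 ≤ 1 := pow_le_one₀ h20.le h21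
          nlinarith
        revert h3
        generalize ((Affine.Point.some x₁ y₁ h₁ : (crv a b c).toAffine.Point) +
          Affine.Point.some x₁ y₁ h₁) = T
        intro h3
        rcases T with _ | ⟨x, y, h⟩
        · exact trivial
        · exact h4.trans h3
    · rw [Affine.Point.add_of_X_ne hx]
      change r ≤ ‖_‖
      rw [crv_addX, Affine.slope_of_X_ne hx]
      exact sum_big ha hb hc hr hx1 hx2 hx (crv_eqn' h₁) (crv_eqn' h₂)
  · intro P hP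
    rcases P with _ | ⟨x, y, h⟩
    · exact trivial
    · rw [Affine.Point.neg_some]
      exact hP

end Pool.Agent.Zk94.HT
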