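import Mathlib
import Pool.Agent.Zk94.HT.E1

/-!
# Project HT, part `S_ELL`: the divisible points
-/

set_option autoImplicit false
set_option linter.all false

open WeierstrassCurve

namespace Pool.Agent.Zk94.HT

section

variable {L : Type} [NontriviallyNormedField L] [IsUltrametricDist L] [ProperSpace L] [CharZero L]
  [DecidableEq L] {a b c : L}

theorem Bg.mono {r r' : ℝ} (h : r' ≤ r) {P : (crv a b c).toAffine.Point} (hP : Bg r P) : Bg r' P := by
  rcases P with _ | ⟨x, y, hxy⟩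
  · exact trivial
  · exact h.trans hP

theorem Bg.zero {r : ℝ} : Bg r (0 : (crv a b c).toAffine.Point) := trivial

/-- the chains -/
def IsCh (P : ℕ → (crv a b c).toAffine.Point) : Prop := ∀ j, P (j + 1) + P (j + 1) = P j

theorem IsCh.pow {P : ℕ → (crv a b c).toAffine.Point} (h : IsCh P) (i n : ℕ) :
    (2 ^ n) • P (i + n) = P i := by
  induction n with
  | zero => rw [pow_zero, one_smul, add_zero]
  | succ n ih => rw [pow_succ, mul_smul, two_smul, ← add_assoc, h (i + n), ih]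

variable (h1 : S_E1) (h2 : S_E2) (hab : a ≠ b) (hbc : b ≠ c) (hac : a ≠ c)

include h1 hab hbc hac

theorem Bg.add {r : ℝ} (hr : max ‖a‖ (max ‖b‖ ‖c‖) < r) {P Q : (crv a b c).toAffine.Point}
    (hP : Bg r P) (hQ : Bg r Q) : Bg r (P + Q) := (h1 L a b c hab hbc hac r hr).1 P Q hP hQ

theorem Bg.neg {r : ℝ} (hr : max ‖a‖ (max ‖b‖ ‖c‖) < r) {P : (crv a b c).toAffine.Point}
    (hP : Bg r P) : Bg r (-P) := (h1 L a b c hab hbc hac r hr).2.1 P hP

theorem Bg.nsmul {r : ℝ} (hr : max ‖a‖ (max ‖b‖ ‖c‖) < r) {P : (crv a b c).toAffine.Point}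
    (hP : Bg r P) (n : ℕ) : Bg r (n • P) := by
  induction n with
  | zero => rw [zero_smul]; exact Bg.zero
  | succ n ih => rw [succ_nsmul]; exact Bg.add h1 hab hbc hac hr ih hP

theorem Bg.pow (h20 : ‖(2 : L)‖ < 1) {r : ℝ} (hr : max ‖a‖ (max ‖b‖ ‖c‖) < r)
    {P : (crv a b c).toAffine.Point} (hP : Bg r P) (n : ℕ) :
    Bg (r / (‖(2 : L)‖ ^ 2) ^ n) ((2 ^ n) • P) := by
  have hρ0 : 0 ≤ max ‖a‖ (max ‖b‖ ‖c‖) := (norm_nonneg a).trans (le_max_left _ _)
  have h2p : 0 < ‖(2 : L)‖ := norm_pos_iff.2 two_ne_zero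
  have hq : ‖(2 : L)‖ ^ 2 ≤ 1 := pow_le_one₀ h2p.le h20.le
  induction n with
  | zero => rw [pow_zero, pow_zero, one_smul, div_one]; exact hP
  | succ n ih =>
    have hr' : max ‖a‖ (max ‖b‖ ‖c‖) < r / (‖(2 : L)‖ ^ 2) ^ n := by
      refine hr.trans_le ?_
      rw [le_div_iff₀ (by positivity)]
      have : (‖(2 : L)‖ ^ 2) ^ n ≤ 1 := pow_le_one₀ (by positivity) hq
      nlinarith [hρ0.trans_lt hr]
    have h3 := (h1 L a b c hab hbc hac _ hr').2.2 two_ne_zero _ ih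
    have e : (2 ^ (n + 1)) • P = (2 ^ n) • P + (2 ^ n) • P := by
      rw [pow_succ', mul_smul, two_smul]
    rw [e]
    refine h3.mono (le_of_eq ?_)
    rw [pow_succ, div_div]

include h2

/-- there are arbitrarily large pairs of near elements in a chain -/
theorem pairs {r : ℝ} (hr : max ‖a‖ (max ‖b‖ ‖c‖) < r) (P : ℕ → (crv a b c).toAffine.Point) (J : ℕ) :
    ∃ i j, J ≤ i ∧ i < j ∧ Bg r (P i - P j) := by
  by_cases hfin : (P '' {i | J ≤ i}).Infinite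
  · obtain ⟨Q, ⟨i, hi, rfl⟩, Q', ⟨j, hj, rfl⟩, hne, hB⟩ := h2 L a b c hab hbc hac r hr _ hfin
    rcases lt_trichotomy i j with h | h | h
    · exact ⟨i, j, hi, h, hB⟩
    · exact absurd (by rw [h]) hne
    · refine ⟨j, i, hj, h, ?_⟩
      have := Bg.neg h1 hab hbc hac hr hB
      rwa [neg_sub] at this
  · rw [Set.not_infinite] at hfin
    have hinf : ({i | J ≤ i} : Set ℕ).Infinite := Set.infinite_of_not_bddAbove (by
      rintro ⟨B, hB⟩
      have := hB (show (max J B + 1) ∈ {i | J ≤ i} from by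
        change J ≤ max J B + 1
        omega)
      omega)
    obtain ⟨i, hi, j, hj, hne, he⟩ := Set.Infinite.exists_ne_map_eq_of_mapsTo hinf
      (Set.mapsTo_image P _) hfin
    rcases lt_trichotomy i j with h | h | h
    · exact ⟨i, j, hi, h, by rw [he, sub_self]; exact Bg.zero⟩
    · exact absurd h hne
    · exact ⟨j, i, hj, h, by rw [he, sub_self]; exact Bg.zero⟩

/-- a divisible point near the origin is the origin -/
theorem ch_zero (h20 : ‖(2 : L)‖ < 1) {r : ℝ} (hr : max ‖a‖ (max ‖b‖ ‖c‖) < r)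
    {P : ℕ → (crv a b c).toAffine.Point} (hP : IsCh P) (hB : Bg r (P 0)) : P 0 = 0 := by
  have hρ0 : 0 ≤ max ‖a‖ (max ‖b‖ ‖c‖) := (norm_nonneg a).trans (le_max_left _ _)
  have h2p : 0 < ‖(2 : L)‖ := norm_pos_iff.2 two_ne_zero
  have hq : ‖(2 : L)‖ ^ 2 < 1 := pow_lt_one₀ h2p.le h20 two_ne_zero
  have hq0 : 0 < ‖(2 : L)‖ ^ 2 := by positivity
  by_contra hne
  obtain ⟨x, y, hxy, hx⟩ : ∃ x y hxy, P 0 = .some x y hxy := by
    rcases h : P 0 with _ | ⟨x, y, hxy⟩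
    · exact absurd h hne
    · exact ⟨x, y, hxy, rfl⟩
  have hxr : r ≤ ‖x‖ := by rw [hx] at hB; exact hB
  obtain ⟨R, hR⟩ : ∃ R, R = ‖x‖ := ⟨_, rfl⟩
  have hR0 : 0 < R := by rw [hR]; exact (hρ0.trans_lt hr).trans_le hxr
  have hRr : max ‖a‖ (max ‖b‖ ‖c‖) < R := by rw [hR]; exact hr.trans_le hxr
  have hBR : Bg R (P 0) := by rw [hx, hR]; exact le_refl _
  obtain ⟨R', hR'⟩ : ∃ R', R' = R / ‖(2 : L)‖ ^ 2 := ⟨_, rfl⟩
  have hRR' : R < R' := by
    rw [hR', lt_div_iff₀ hq0]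
    nlinarith
  -- a large index
  obtain ⟨J, hJ⟩ : ∃ J : ℕ, (‖(2 : L)‖ ^ 2) ^ J * R' < r :=
    by
      obtain ⟨J, hJ⟩ := exists_pow_lt_of_lt_one (show 0 < r / R' from
        div_pos (hρ0.trans_lt hr) (hR0.trans hRR')) hq
      exact ⟨J, by rwa [lt_div_iff₀ (hR0.trans hRR')] at hJ⟩
  obtain ⟨i, j, hi, hij, hBij⟩ := pairs h1 h2 hab hbc hac hr P J
  obtain ⟨n, rfl⟩ : ∃ n, j = i + n := ⟨j - i, by omega⟩
  have hn : 0 < n := by omega
  have e1 := hP.pow i n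
  obtain ⟨k, hk⟩ : ∃ k : ℕ, 2 ^ n = 2 * k + 2 := by
    obtain ⟨m, rfl⟩ : ∃ m, n = m + 1 := ⟨n - 1, by omega⟩
    refine ⟨2 ^ m - 1, ?_⟩
    have : 1 ≤ 2 ^ m := Nat.one_le_two_pow
    rw [pow_succ]
    omega
  -- `P i - P j = (2 k + 1) P j`
  have e2 : P i - P (i + n) = (2 * k + 1) • P (i + n) := by
    rw [← e1, hk, show 2 * k + 2 = (2 * k + 1) + 1 by ring, succ_nsmul (P (i + n)) (2 * k + 1),
      add_sub_cancel_right]
  rw [e2] at hBij
  have h3 := Bg.pow h1 hab hbc hac h20 hr hBij (i + n)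
  have e3 : (2 ^ (i + n)) • (2 * k + 1) • P (i + n) = (2 * k + 1) • P 0 := by
    have e4 := hP.pow 0 (i + n)
    rw [zero_add] at e4
    rw [smul_comm, e4]
  rw [e3] at h3
  have h4 : Bg R' ((2 * k + 1) • P 0) := by
    refine h3.mono ?_
    rw [le_div_iff₀ (by positivity)]
    have h5 : (‖(2 : L)‖ ^ 2) ^ (i + n) ≤ (‖(2 : L)‖ ^ 2) ^ J :=
      pow_le_pow_of_le_one hq0.le hq.le (by omega)
    have h6 : 0 < R' := hR0.trans hRR'
    nlinarith
  -- the double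
  have h5 : Bg R' ((2 * k) • P 0) := by
    have h6 := (h1 L a b c hab hbc hac R hRr).2.2 two_ne_zero _
      (Bg.nsmul h1 hab hbc hac hRr hBR k)
    rw [← hR'] at h6
    rwa [mul_smul, two_smul]
  have h6 : Bg R' (P 0) := by
    have h7 := Bg.add h1 hab hbc hac (hRr.trans hRR') h4
      (Bg.neg h1 hab hbc hac (hRr.trans hRR') h5)
    have e5 : (2 * k + 1) • P 0 + -((2 * k) • P 0) = P 0 := by
      rw [succ_nsmul]
      abel
    rwa [e5] at h7
  rw [hx] at h6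
  have h7 : R' ≤ ‖x‖ := h6
  linarith

end

end Pool.Agent.Zk94.HT
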