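import Mathlib
import Pool.Agent.Zk94.HT.E4a
import Pool.Agent.Zk12.HT.Stm

/-!
# Project HT, part `S_ELL`
-/

set_option autoImplicit false
set_option linter.all false

open WeierstrassCurve

namespace Pool.Agent.Zk94.HT

theorem IsCh.sub {L : Type} [Field L] [DecidableEq L] {a b c : L}
    {P Q : ℕ → (crv a b c).toAffine.Point} (hP : ∀ j, P (j + 1) + P (j + 1) = P j)
    (hQ : ∀ j, Q (j + 1) + Q (j + 1) = Q j) (j : ℕ) :
    (P (j + 1) - Q (j + 1)) + (P (j + 1) - Q (j + 1)) = P j - Q j := by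
  rw [← hP j, ← hQ j]
  abel

/-- S_ELL from its subparts -/
theorem t_ELL_of (h1 : S_E1) (h2 : S_E2) (h3 : S_E3) : Pool.Agent.Zk12.HT.S_ELL := by
  intro L _ _ _ _ h20 a b c hab hbc hac
  letI : DecidableEq L := Classical.decEq L
  have hρ0 : 0 ≤ max ‖a‖ (max ‖b‖ ‖c‖) := (norm_nonneg a).trans (le_max_left _ _)
  have h2p : 0 < ‖(2 : L)‖ := norm_pos_iff.2 two_ne_zero
  have key : ∀ X₀ : L, Pool.Agent.Zk12.HT.Chain a b c X₀ →
      ∃ P : ℕ → (crv a b c).toAffine.Point, (∀ j, P (j + 1) + P (j + 1) = P j) ∧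
        ∃ y h, P 0 = .some X₀ y h := by
    rintro X₀ ⟨X, α, β, γ, rfl, hh⟩
    obtain ⟨P, hP, hPx⟩ := h3 L a b c hab hbc hac X α β γ hh
    exact ⟨P, hP, hPx 0⟩
  constructor
  · by_contra hinf
    choose! P hP hPx using key
    have hinj : Set.InjOn (fun X₀ => P X₀ 0) {X₀ : L | Pool.Agent.Zk12.HT.Chain a b c X₀} := by
      intro x hx x' hx' he
      obtain ⟨y, hy, e1⟩ := hPx x hx
      obtain ⟨y', hy', e2⟩ := hPx x' hx'
      have he' : P x 0 = P x' 0 := he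
      rw [e1, e2] at he'
      have := he'
      simp only [Affine.Point.some.injEq] at this
      exact this.1
    have hinf' : ((fun X₀ => P X₀ 0) '' {X₀ : L | Pool.Agent.Zk12.HT.Chain a b c X₀}).Infinite :=
      Set.Infinite.image hinj hinf
    obtain ⟨_, ⟨x, hx, rfl⟩, _, ⟨x', hx', rfl⟩, hne, hB⟩ := h2 L a b c hab hbc hac
      (max ‖a‖ (max ‖b‖ ‖c‖) + 1) (by linarith) _ hinf'
    have h4 := ch_zero (P := fun j => P x j - P x' j) h1 h2 hab hbc hac h20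
      (show max ‖a‖ (max ‖b‖ ‖c‖) < max ‖a‖ (max ‖b‖ ‖c‖) + 1 by linarith)
      (fun j => IsCh.sub (hP x hx) (hP x' hx') j) hB
    exact hne (sub_eq_zero.1 h4)
  · intro X₀ hX
    obtain ⟨P, hP, y, h, e⟩ := key X₀ hX
    have h5 : ‖X₀‖ ≤ max ‖a‖ (max ‖b‖ ‖c‖) := by
      by_contra hlt
      rw [not_le] at hlt
      have hB : Bg ‖X₀‖ (P 0) := by
        rw [e]
        exact le_refl _
      have h4 := ch_zero h1 h2 hab hbc hac h20 hlt hP hB
      rw [e] at h4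
      exact absurd h4 (by simp)
    calc ‖(2 : L)‖ ^ 10 * ‖X₀‖ ≤ 1 * ‖X₀‖ :=
          mul_le_mul_of_nonneg_right (pow_le_one₀ h2p.le h20.le) (norm_nonneg _)
      _ = ‖X₀‖ := one_mul _
      _ ≤ _ := h5

end Pool.Agent.Zk94.HT
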