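import Mathlib
import Pool.Agent.Zk94.HT.E1
import Pool.Agent.Zk94.HT.E4
import Pool.Agent.Zk17.HT.E2

/-!
# Project HT: the part `S_ELL`
-/

set_option autoImplicit false
set_option linter.all false

namespace Pool.Agent.Zk94.HT

theorem t_ELL : Pool.Agent.Zk12.HT.S_ELL :=
  t_ELL_of t_E1 (Pool.Agent.Zk17.HT.t_E2 t_E1) Pool.Agent.Zk17.HT.t_E3

end Pool.Agent.Zk94.HT
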